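import Pool.Agent.Q72.AL.Stm4
import Pool.Agent.Q203.AL.AH2a

/-!
# Project AL: the job AH2B (large window, error `ε / log`)
-/

set_option autoImplicit false

open Complex MeasureTheory Filter Topology Set
open H345 (Zo aa XX)

namespace Pool.Agent.Q149.AL

open Pool.Agent.Q72.AL

lemma spb_mono {a ε ε' X : ℝ} (h : ε ≤ ε') (hX : 16 ≤ X) (hS : SPB a ε X) : SPB a ε' X := by
  intro n hn h1 h2
  obtain ⟨k, hk1, hk2⟩ := hS n hn h1 h2
  refine ⟨k, hk1, hk2.trans (div_le_div_of_nonneg_right h ?_)⟩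
  exact Real.log_nonneg (by linarith)

lemma stepB {X T u v a ε L M : ℝ} {k : ℕ} (hM : M = Real.log (X / 16)) (hM0 : 0 < M) (hX : 0 < X)
    (hT : X / 8 ≤ T) (hu : X / 16 ≤ u) (hut : |u - T| ≤ L ^ 2) (hε : 0 ≤ ε) (hsp : 1 / M ≤ v - u)
    (hk : |(v - u) * (Real.log u + a) / (2 * Real.pi) - k / 2| ≤ ε / Real.log u) :
    |2 * (Real.log T + a) * (v - u) - 2 * Real.pi * k| ≤
      (4 * Real.pi * ε + 32 * L ^ 2 / X) * (v - u) := by
  have hπ : 0 < Real.pi := Real.pi_pos
  have hd : 0 < v - u := lt_of_lt_of_le (by positivity) hsp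
  have hlu : M ≤ Real.log u := by
    rw [hM]
    exact Real.log_le_log (by positivity) hu
  have hlu0 : 0 < Real.log u := by linarith
  have h4 : |2 * (Real.log u + a) * (v - u) - 2 * Real.pi * k| ≤ 4 * Real.pi * (ε / Real.log u) := by
    have e : 2 * (Real.log u + a) * (v - u) - 2 * Real.pi * k =
        4 * Real.pi * ((v - u) * (Real.log u + a) / (2 * Real.pi) - k / 2) := by
      field_simp
      ring
    rw [e, abs_mul, abs_of_pos (by positivity : (0 : ℝ) < 4 * Real.pi)]
    exact mul_le_mul_of_nonneg_left hk (by positivity)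
  have h5 : 4 * Real.pi * (ε / Real.log u) ≤ 4 * Real.pi * ε * (v - u) := by
    have e1 : ε / Real.log u ≤ ε / M := div_le_div_of_nonneg_left hε hM0 hlu
    have e2 : ε / M ≤ ε * (v - u) := by
      calc ε / M = ε * (1 / M) := by ring
        _ ≤ ε * (v - u) := mul_le_mul_of_nonneg_left hsp hε
    calc 4 * Real.pi * (ε / Real.log u) ≤ 4 * Real.pi * (ε * (v - u)) :=
          mul_le_mul_of_nonneg_left (e1.trans e2) (by positivity)
      _ = _ := by ring
  have h6 : |Real.log T - Real.log u| ≤ 2 * L ^ 2 / (X / 8) :=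
    Pool.Agent.Q203.AL.log_near (X := X / 8) (by positivity) hT (by linarith) hut
  have h7 : |2 * (Real.log T - Real.log u) * (v - u)| ≤ 32 * L ^ 2 / X * (v - u) := by
    rw [abs_mul, abs_of_pos hd, abs_mul, abs_of_pos (by norm_num : (0 : ℝ) < 2)]
    have : 2 * |Real.log T - Real.log u| ≤ 32 * L ^ 2 / X := by
      calc 2 * |Real.log T - Real.log u| ≤ 2 * (2 * L ^ 2 / (X / 8)) :=
            mul_le_mul_of_nonneg_left h6 (by norm_num)
        _ = 32 * L ^ 2 / X := by
            field_simp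
            ring
    exact mul_le_mul_of_nonneg_right this hd.le
  have e : 2 * (Real.log T + a) * (v - u) - 2 * Real.pi * k =
      (2 * (Real.log u + a) * (v - u) - 2 * Real.pi * k) +
        2 * (Real.log T - Real.log u) * (v - u) := by ring
  rw [e]
  calc _ ≤ |2 * (Real.log u + a) * (v - u) - 2 * Real.pi * k| +
        |2 * (Real.log T - Real.log u) * (v - u)| := abs_add_le _ _
    _ ≤ 4 * Real.pi * ε * (v - u) + 32 * L ^ 2 / X * (v - u) := add_le_add (h4.trans h5) h7
    _ = _ := by ring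

theorem ah2b (h1 : J_ENUM) (h2 : J_AH1B) : J_AH2B := by
  intro hRH a δ hδ
  obtain ⟨E1, E2, -⟩ := h1 hRH
  obtain ⟨X1, hX1⟩ := h2 hRH a
  have hπ := Real.pi_pos
  set ε : ℝ := min (δ / (8 * Real.pi)) (1 / 8) with hε
  have hε0 : 0 < ε := lt_min (by positivity) (by norm_num)
  have hε1 : ε ≤ δ / (8 * Real.pi) := min_le_left _ _
  have hε3 : ε ≤ 1 / 8 := min_le_right _ _
  have A1 : ∀ᶠ X : ℝ in atTop, Real.log X ^ 2 ≤ δ / 64 * X := by
    have := (Real.isLittleO_pow_log_id_atTop (n := 2)).bound (by positivity : (0 : ℝ) < δ / 64)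
    filter_upwards [this, eventually_ge_atTop 1] with X hX hX1
    have h0 : 0 ≤ Real.log X ^ 2 := by positivity
    rw [Real.norm_eq_abs, abs_of_nonneg h0, id, Real.norm_eq_abs, abs_of_nonneg (by linarith)] at hX
    exact hX
  have A2 : ∀ᶠ X : ℝ in atTop, Real.log X ^ 2 ≤ 1 / 8 * X := by
    have := (Real.isLittleO_pow_log_id_atTop (n := 2)).bound (by norm_num : (0 : ℝ) < 1 / 8)
    filter_upwards [this, eventually_ge_atTop 1] with X hX hX1
    have h0 : 0 ≤ Real.log X ^ 2 := by positivity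
    rw [Real.norm_eq_abs, abs_of_nonneg h0, id, Real.norm_eq_abs, abs_of_nonneg (by linarith)] at hX
    exact hX
  have A3 : ∀ᶠ X : ℝ in atTop, 1 ≤ Real.log (X / 16) :=
    (Real.tendsto_log_atTop.comp (tendsto_id.atTop_div_const (by norm_num : (0 : ℝ) < 16))).eventually_ge_atTop 1
  obtain ⟨X0, hX0'⟩ := eventually_atTop.1 (A1.and (A2.and (A3.and
    ((eventually_ge_atTop X1).and (eventually_ge_atTop 16)))))
  refine ⟨ε, X0, hε0, fun X hXX hSP => ?_⟩
  obtain ⟨B1, B2, B3, B4, B5⟩ := hX0' X hXX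
  set L : ℝ := Real.log X with hL
  set M : ℝ := Real.log (X / 16) with hM
  have hX0 : 0 < X := by linarith
  have hM0 : 0 < M := by linarith
  -- the constant
  have hc : 4 * Real.pi * ε + 32 * L ^ 2 / X ≤ δ := by
    have c1 : 4 * Real.pi * ε ≤ δ / 2 := by
      calc 4 * Real.pi * ε ≤ 4 * Real.pi * (δ / (8 * Real.pi)) :=
            mul_le_mul_of_nonneg_left hε1 (by positivity)
        _ = δ / 2 := by
            field_simp
            ring
    have c2 : 32 * L ^ 2 / X ≤ δ / 2 := by
      rw [div_le_iff₀ hX0]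
      linarith
    linarith
  obtain ⟨S1, S2⟩ := hX1 X B4 (spb_mono hε3 B5 hSP)
  have key : ∀ T : ℝ, X / 4 ≤ T → T ≤ 8 * X → ∀ t ∈ Zo, ∀ t' ∈ Zo, |t - T| ≤ L ^ 2 →
      |t' - T| ≤ L ^ 2 → t < t' → ∃ K : ℤ,
        |2 * (Real.log T + a) * (t' - t) - 2 * Real.pi * K| ≤ δ * (t' - t) := by
    intro T hT1 hT2 t ht t' ht' d1 d2 htt
    have t1 := abs_le.1 d1
    have t2 := abs_le.1 d2
    have tX : X / 16 ≤ t := by linarith
    have tX' : t' ≤ 24 * X := by linarith
    obtain ⟨n, hn1, hn⟩ := E2 t ht (by linarith)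
    obtain ⟨m, hm1, hm⟩ := E2 t' ht' (by linarith)
    have hnm : n < m := by
      by_contra hcon
      have := SG.ord_mono hm1 (not_lt.1 hcon)
      rw [hn, hm] at this
      linarith
    have hc' := Pool.Agent.Q203.AL.core (o := SG.ord) (c := 4 * Real.pi * ε + 32 * L ^ 2 / X)
      (A := 2 * (Real.log T + a)) hnm.le (by
        intro j hj1 hj2
        have hj0 : 1 ≤ j := hn1.trans hj1
        have m1 : t ≤ SG.ord j := hn ▸ SG.ord_mono hn1 hj1
        have m2 : SG.ord j ≤ SG.ord (j + 1) := SG.ord_mono hj0 (by omega)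
        have m3 : SG.ord (j + 1) ≤ t' := hm ▸ SG.ord_mono (by omega) (by omega)
        obtain ⟨k, hk1, hk⟩ := hSP j hj0 (by linarith) (by linarith)
        have hlu : M ≤ Real.log (SG.ord j) := by
          rw [hM]
          exact Real.log_le_log (by positivity) (by linarith)
        have hrp : ε / Real.log (SG.ord j) ≤ 1 / 8 := by
          rw [div_le_iff₀ (by linarith)]
          nlinarith
        have hlt : SG.ord j < SG.ord (j + 1) := by
          rcases m2.lt_or_eq with h | h
          · exact h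
          · exfalso
            rw [← h, sub_self, zero_mul, zero_div, zero_sub, abs_neg,
              abs_of_nonneg (by positivity)] at hk
            have hk1' : (1 : ℝ) ≤ k := by exact_mod_cast hk1
            linarith
        have hsp := S2 (SG.ord j) (E1 j hj0) (SG.ord (j + 1)) (E1 (j + 1) (by omega))
          (by linarith) hlt (by linarith)
        have hut : |SG.ord j - T| ≤ L ^ 2 := by
          rw [abs_le]
          constructor <;> linarith
        exact ⟨k, by exact_mod_cast stepB hM hM0 hX0 (by linarith) (by linarith) hut hε0.le hsp hk⟩)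
    obtain ⟨K, hK⟩ := hc'
    rw [hn, hm] at hK
    exact ⟨K, hK.trans (mul_le_mul_of_nonneg_right hc (by linarith))⟩
  refine ⟨S1, S2, ?_⟩
  intro T hT1 hT2 t ht t' ht' d1 d2
  rcases lt_trichotomy t t' with h | h | h
  · obtain ⟨K, hK⟩ := key T hT1 hT2 t ht t' ht' d1 d2 h
    have h3 : |t - t'| = t' - t := by
      rw [abs_sub_comm, abs_of_pos (by linarith)]
    rw [h3]
    apply Pool.Agent.Q203.AL.exp_near (K := -K)
    have e : 2 * (Real.log T + a) * (t - t') - 2 * Real.pi * ((-K : ℤ) : ℝ) =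
        -(2 * (Real.log T + a) * (t' - t) - 2 * Real.pi * K) := by
      push_cast
      ring
    rw [e, abs_neg]
    exact hK
  · subst h
    simp
  · obtain ⟨K, hK⟩ := key T hT1 hT2 t' ht' t ht d2 d1 h
    have h3 : |t - t'| = t - t' := abs_of_pos (by linarith)
    rw [h3]
    exact Pool.Agent.Q203.AL.exp_near hK

end Pool.Agent.Q149.AL
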