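import Pool.Agent.Q72.AL.Stm

/-! The explicit formula: the line `Re s = 3/2` (`J_RIGHT`). -/

set_option autoImplicit false

open Complex MeasureTheory Filter Topology Set

namespace Pool.Agent.Q149.AL

open Pool.Agent.Q72.AL

/-- the Moebius function with complex values -/
noncomputable def mu : ℕ → ℂ := fun n => ((ArithmeticFunction.moebius n : ℤ) : ℂ)

lemma inv_zeta {s : ℂ} (hs : 1 < s.re) : (riemannZeta s)⁻¹ = ∑' n, LSeries.term mu s n := by
  have h1 := ArithmeticFunction.LSeries_zeta_mul_Lseries_moebius hs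
  rw [ArithmeticFunction.LSeries_zeta_eq_riemannZeta hs] at h1
  have h2 := inv_eq_of_mul_eq_one_right h1
  rw [h2]
  rfl

lemma summ : Summable fun n => ‖LSeries.term mu (3 / 2 : ℂ) n‖ := by
  have : LSeriesSummable mu (3 / 2 : ℂ) :=
    ArithmeticFunction.LSeriesSummable_moebius_iff.2 (by norm_num)
  exact this.norm

lemma norm_term (y : ℝ) (n : ℕ) :
    ‖LSeries.term mu (⟨3 / 2, y⟩ : ℂ) n‖ = ‖LSeries.term mu (3 / 2 : ℂ) n‖ := by
  rw [LSeries.norm_term_eq, LSeries.norm_term_eq]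
  norm_num

/-- the exponential factor on the line `Re s = 3/2` -/
noncomputable def E (κ v T y : ℝ) : ℂ :=
  cexp ((κ : ℂ) * ((⟨3 / 2, y⟩ : ℂ) - 1 / 2 - (T : ℂ) * I) ^ 2 +
    (v : ℂ) * ((⟨3 / 2, y⟩ : ℂ) - 1 / 2 - (T : ℂ) * I))

lemma w_eq (T y : ℝ) : (⟨3 / 2, y⟩ : ℂ) - 1 / 2 - (T : ℂ) * I = (1 - (T : ℂ) * I) + y * I := by
  rw [Complex.mk_eq_add_mul_I]
  push_cast
  ring

lemma E_eq (κ v T y : ℝ) : E κ v T y =
    cexp (-(κ : ℂ) * (y : ℂ) ^ 2 + (I * (2 * κ * (1 - (T : ℂ) * I) + v)) * (y : ℂ) +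
      (κ * (1 - (T : ℂ) * I) ^ 2 + v * (1 - (T : ℂ) * I))) := by
  unfold E
  rw [w_eq]
  congr 1
  linear_combination (κ : ℂ) * (y : ℂ) ^ 2 * Complex.I_sq

lemma E_int (κ v T : ℝ) (hκ : 0 < κ) : Integrable (E κ v T) := by
  have : E κ v T = fun y : ℝ =>
      cexp (-(κ : ℂ) * (y : ℂ) ^ 2 + (I * (2 * κ * (1 - (T : ℂ) * I) + v)) * (y : ℂ) +
      (κ * (1 - (T : ℂ) * I) ^ 2 + v * (1 - (T : ℂ) * I))) := funext (E_eq κ v T)
  rw [this]
  exact integrable_cexp_quadratic' (by simpa using hκ) _ _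

lemma E_integral (κ x T : ℝ) (hκ : 0 < κ) : ∫ y, E κ x T y =
    ((Real.sqrt (Real.pi / κ) : ℝ) : ℂ) * ((Real.exp (-(x ^ 2 / (4 * κ))) : ℝ) : ℂ) := by
  have hκ0 : (κ : ℂ) ≠ 0 := by exact_mod_cast hκ.ne'
  simp only [E_eq]
  rw [integral_cexp_quadratic (by simpa using hκ)]
  congr 1
  · rw [Real.sqrt_eq_rpow, Complex.ofReal_cpow (by positivity)]
    push_cast
    rw [neg_neg]
  · rw [Complex.ofReal_exp]
    congr 1
    push_cast
    field_simp
    linear_combination ((2 * (κ : ℂ) * (1 - (T : ℂ) * I) + x) ^ 2) * Complex.I_sq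

lemma term_mul (κ v T y : ℝ) (n : ℕ) (hn : n ≠ 0) :
    LSeries.term mu (⟨3 / 2, y⟩ : ℂ) n * E κ v T y =
      (mu n * cexp (-(1 / 2 + (T : ℂ) * I) * ((Real.log n : ℝ) : ℂ))) *
        E κ (v - Real.log n) T y := by
  have hn' : (n : ℂ) ≠ 0 := by exact_mod_cast hn
  rw [LSeries.term_of_ne_zero hn, Complex.cpow_def_of_ne_zero hn', div_eq_mul_inv,
    ← Complex.exp_neg, Complex.natCast_log.symm]
  unfold E
  rw [mul_assoc, mul_assoc, ← Complex.exp_add, ← Complex.exp_add]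
  congr 2
  push_cast
  ring

lemma coef (κ v T : ℝ) (hκ : 0 < κ) (n : ℕ) (hn : n ≠ 0) :
    ((cf κ v n : ℝ) : ℂ) * cexp (-((T * Real.log n : ℝ) : ℂ) * I) =
      ((2 * Real.pi : ℝ) : ℂ)⁻¹ *
        ((mu n * cexp (-(1 / 2 + (T : ℂ) * I) * ((Real.log n : ℝ) : ℂ))) *
          (((Real.sqrt (Real.pi / κ) : ℝ) : ℂ) *
            ((Real.exp (-((v - Real.log n) ^ 2 / (4 * κ))) : ℝ) : ℂ))) := by
  have hn' : (0 : ℝ) < n := by exact_mod_cast Nat.pos_of_ne_zero hn
  have hc : (2 * Real.sqrt (Real.pi * κ))⁻¹ = (2 * Real.pi)⁻¹ * Real.sqrt (Real.pi / κ) := by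
    rw [Real.sqrt_mul Real.pi_pos.le, Real.sqrt_div Real.pi_pos.le]
    have h1 : 0 < Real.sqrt Real.pi := Real.sqrt_pos.2 Real.pi_pos
    have h2 : 0 < Real.sqrt κ := Real.sqrt_pos.2 hκ
    have h3 : Real.sqrt Real.pi * Real.sqrt Real.pi = Real.pi :=
      Real.mul_self_sqrt Real.pi_pos.le
    field_simp
    nlinarith [h3]
  have he : cexp (-(1 / 2 + (T : ℂ) * I) * ((Real.log n : ℝ) : ℂ)) =
      (((n : ℝ) ^ (-(1 / 2) : ℝ) : ℝ) : ℂ) * cexp (-((T * Real.log n : ℝ) : ℂ) * I) := by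
    rw [Real.rpow_def_of_pos hn', Complex.ofReal_exp, ← Complex.exp_add]
    congr 1
    push_cast
    ring
  unfold cf gg mu
  rw [he, hc]
  push_cast
  ring

theorem right : J_RIGHT := by
  intro κ v T hκ
  have hPh : ∀ y : ℝ, Ph κ v T (⟨3 / 2, y⟩ : ℂ) =
      ∑' n, LSeries.term mu (⟨3 / 2, y⟩ : ℂ) n * E κ v T y := by
    intro y
    unfold Ph
    rw [inv_zeta (by norm_num), tsum_mul_right, mul_comm]
    rfl
  have hF : ∀ n, Integrable (fun y => LSeries.term mu (⟨3 / 2, y⟩ : ℂ) n * E κ v T y) := by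
    intro n
    by_cases hn : n = 0
    · subst hn
      simp
    · have : (fun y : ℝ => LSeries.term mu (⟨3 / 2, y⟩ : ℂ) n * E κ v T y) =
          fun y => (mu n * cexp (-(1 / 2 + (T : ℂ) * I) * ((Real.log n : ℝ) : ℂ))) *
            E κ (v - Real.log n) T y := funext fun y => term_mul κ v T y n hn
      rw [this]
      exact (E_int κ _ T hκ).const_mul _
  have hS : Summable fun n => ∫ y, ‖LSeries.term mu (⟨3 / 2, y⟩ : ℂ) n * E κ v T y‖ := by
    have : (fun n => ∫ y : ℝ, ‖LSeries.term mu (⟨3 / 2, y⟩ : ℂ) n * E κ v T y‖) =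
        fun n => ‖LSeries.term mu (3 / 2 : ℂ) n‖ * ∫ y, ‖E κ v T y‖ := by
      funext n
      rw [← integral_const_mul]
      refine integral_congr_ae (Eventually.of_forall fun y => ?_)
      show ‖_ * _‖ = _
      rw [norm_mul, norm_term]
    rw [this]
    exact summ.mul_right _
  constructor
  · have hb : ∀ y : ℝ, ‖Ph κ v T (⟨3 / 2, y⟩ : ℂ)‖ ≤
        (∑' n, ‖LSeries.term mu (3 / 2 : ℂ) n‖) * ‖E κ v T y‖ := by
      intro y
      rw [hPh y, tsum_mul_right, norm_mul]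
      refine mul_le_mul_of_nonneg_right ?_ (norm_nonneg _)
      have h1 : Summable fun n => ‖LSeries.term mu (⟨3 / 2, y⟩ : ℂ) n‖ := by
        simp only [norm_term]
        exact summ
      refine le_trans (norm_tsum_le_tsum_norm h1) (le_of_eq ?_)
      exact tsum_congr fun n => norm_term y n
    refine Integrable.mono' ((E_int κ v T hκ).norm.const_mul _) ?_ (Eventually.of_forall hb)
    have hc : Continuous fun y : ℝ => Ph κ v T (⟨3 / 2, y⟩ : ℂ) := by
      have hline : Continuous fun y : ℝ => (⟨3 / 2, y⟩ : ℂ) := by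
        have : (fun y : ℝ => (⟨3 / 2, y⟩ : ℂ)) = fun y : ℝ => ((3 / 2 : ℝ) : ℂ) + (y : ℂ) * I := by
          funext y
          exact Complex.mk_eq_add_mul_I _ _
        rw [this]
        fun_prop
      have hz : Continuous fun y : ℝ => riemannZeta (⟨3 / 2, y⟩ : ℂ) := by
        rw [continuous_iff_continuousAt]
        intro y
        have h1 : (⟨3 / 2, y⟩ : ℂ) ≠ 1 := by
          intro h
          have := congrArg Complex.re h
          norm_num at this
        exact (differentiableAt_riemannZeta h1).continuousAt.comp (f := fun y : ℝ => (⟨3 / 2, y⟩ : ℂ))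
          hline.continuousAt
      have hz0 : ∀ y : ℝ, riemannZeta (⟨3 / 2, y⟩ : ℂ) ≠ 0 := fun y =>
        riemannZeta_ne_zero_of_one_lt_re (by norm_num)
      unfold Ph
      exact (by fun_prop : Continuous fun y : ℝ => cexp ((κ : ℂ) * ((⟨3 / 2, y⟩ : ℂ) - 1 / 2 -
        (T : ℂ) * I) ^ 2 + (v : ℂ) * ((⟨3 / 2, y⟩ : ℂ) - 1 / 2 - (T : ℂ) * I))).mul (hz.inv₀ hz0)
    exact hc.aestronglyMeasurable
  · have hs := (hasSum_integral_of_summable_integral_norm hF hS).tsum_eq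
    simp only [hPh]
    rw [← hs, ← tsum_mul_left]
    unfold DD
    refine tsum_congr fun n => ?_
    by_cases hn : n = 0
    · subst hn
      simp [cf]
    · simp only [term_mul κ v T _ n hn]
      rw [integral_const_mul, E_integral κ _ T hκ]
      exact coef κ v T hκ n hn

end Pool.Agent.Q149.AL
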